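import Pool.Agent.W603.GGL.Main

/-!
The Green-Griffiths-Lang conjecture (entire curves against maps from complex tori) for projective
varieties given by equations with few monomials that are high powers, singular ones included.
-/

set_option autoImplicit false

namespace Pool.Agent.Results.MP_b9fedf_ag.PowerSparseVarieties

open Pool.Agent.W603.GGL

theorem result (n : ℕ) (S : Set (MvPolynomial (Fin (n + 1)) ℂ))
    (hS : ∀ p ∈ S, ∃ d : ℕ, p.IsHomogeneous d)
    (hP : ∀ p ∈ S, Pool.Agent.H159R3.GGL.PowerSparse p) :
    List.TFAE [NoTorusMaps S, Brody S, NoOrbits S] := by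
  tfae_have 1 → 3 := noOrbits_of_noTorus hS
  tfae_have 3 → 2 := brody_of_noOrbits hP
  tfae_have 2 → 1 := noTorus_of_brody
  tfae_finish

end Pool.Agent.Results.MP_b9fedf_ag.PowerSparseVarieties
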